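import Mathlib
import Pool.Agent.TH861.HB.Base
import Pool.Agent.TH861.HB.Spin

set_option autoImplicit false

open Pool.Agent.TH861.HB

namespace Pool.Agent.Results.MP_9bc7fc_gt.BoundaryHomomorphism

/-- For a slope c ≥ 0 (c = 11/8 is the 11/8 conjecture) the inequality b₂ ≥ c |σ| for all closed simply
connected smooth spin 4-manifolds is equivalent to a bound with errors for one homology 3-sphere as boundary, to
a bound with a constant for each homology sphere as boundary, and to the existence of a homomorphism φ from the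
group of homology 3-spheres to ℝ with |c σ (W) - φ (∂W)| ≤ b₂ (W) for all simply connected spin fillings W; the
value of φ is forced on the homology spheres that split a closed manifold with b₂ = -c σ. -/
theorem result {Θ : Type*} [AddCommGroup Θ] (S : SpinFillings Θ) (c : ℝ) (hc : 0 ≤ c) : List.TFAE
    [∀ A, S.bd A = 0 → c * |(S.sig A : ℝ)| ≤ S.b₂ A,
     ∃ θ, ∀ ε : ℝ, 0 < ε → ∃ C : ℝ, ∀ A, S.bd A = θ → c * |(S.sig A : ℝ)| ≤ (1 + ε) * S.b₂ A + C,
     ∃ f : Θ → ℝ, ∀ A, c * |(S.sig A : ℝ)| ≤ S.b₂ A + f (S.bd A),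
     ∃ φ : Θ →+ ℝ, (∀ A, |c * S.sig A - φ (S.bd A)| ≤ S.b₂ A) ∧
       ∀ A B, S.bd B = - S.bd A → (S.b₂ A : ℝ) + S.b₂ B = - c * (S.sig A + S.sig B) →
         φ (S.bd A) = S.b₂ A + c * S.sig A] :=
  S.main c hc

end Pool.Agent.Results.MP_9bc7fc_gt.BoundaryHomomorphism
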